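import Pool.Agent.Y752.QF.Stm2
import Pool.Agent.H423R2.RGL.K.H463R2_RG_FIN
import Pool.Agent.H423R2.RGL.CGF

set_option autoImplicit false
set_option linter.all false

/-! Project QF (helper752): the real primitive characters of given parity: the conductor
determines the character; the sum over the characters through the four families. -/

namespace Pool.Agent.Y845.QF

open Pool.Agent.Y752.QF
open Pool.Agent.H306R2.RG (FD F8 F4 F1 cf jo Fam CG SFg)
open Pool.Agent.H306R2.RG.LnkC (RPC)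
open Pool.Agent.H306R2.RZ (js)
open Pool.Agent.H463R2.RGFIN (Qr Rr ch ch_spec Qr_unique)

noncomputable section

/-- the sign -/
def eps (b : Bool) : ℤ := if b then -1 else 1

lemma eps_or (b : Bool) : eps b = 1 ∨ eps b = -1 := by
  cases b <;> simp [eps]

lemma eps_inj {b b' : Bool} (h : eps b = eps b') : b = b' := by
  cases b <;> cases b' <;> simp [eps] at h ⊢

lemma jac_self (d : ℕ) (hd : Odd d) : jacobiSym (d : ℤ) (8 * d - 1) = 1 := by
  have hd1 : 1 ≤ d := hd.pos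
  have hn : Odd (8 * d - 1) := by
    rw [Nat.odd_iff]; omega
  have hmod : jacobiSym ((8 * d - 1 : ℕ) : ℤ) d = jacobiSym (-1) d := by
    rw [jacobiSym.mod_left, jacobiSym.mod_left (-1)]
    congr 1
    have : ((8 * d - 1 : ℕ) : ℤ) = -1 + (d : ℤ) * 8 := by omega
    rw [this, Int.add_mul_emod_self_left]
  have h2 : d % 2 = 1 := Nat.odd_iff.1 hd
  have h4 : d % 4 = 1 ∨ d % 4 = 3 := by omega
  rcases h4 with h | h
  · rw [jacobiSym.quadratic_reciprocity_one_mod_four h hn, hmod, jacobiSym.at_neg_one hd,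
      ZMod.χ₄_nat_one_mod_four h]
  · rw [jacobiSym.quadratic_reciprocity_three_mod_four h (by omega), hmod,
      jacobiSym.at_neg_one hd, ZMod.χ₄_nat_three_mod_four h]
    norm_num

lemma jac_eps (b : Bool) (d : ℕ) (hd1 : 1 ≤ d) : jacobiSym (eps b) (8 * d - 1) = eps b := by
  have hn : Odd (8 * d - 1) := by
    rw [Nat.odd_iff]; omega
  cases b
  · simp [eps, jacobiSym.one_left]
  · have h3 : (8 * d - 1) % 4 = 3 := by omega
    simp only [eps, if_true]
    rw [jacobiSym.at_neg_one hn, ZMod.χ₄_nat_three_mod_four h3]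

lemma jac_two (d : ℕ) (hd1 : 1 ≤ d) : jacobiSym 2 (8 * d - 1) = 1 := by
  have hn : Odd (8 * d - 1) := by
    rw [Nat.odd_iff]; omega
  rw [jacobiSym.at_two hn, ZMod.χ₈_nat_eq_if_mod_eight]
  have h1 : (8 * d - 1) % 2 ≠ 0 := by omega
  have h2 : (8 * d - 1) % 8 = 7 := by omega
  simp [h1, h2]

lemma cf_odd (φ : FD) (d n : ℕ) (hn : Odd n) : cf φ d n = ((jacobiSym (φ.e * (d : ℤ)) n : ℤ) : ℝ) := by
  have h2 : ¬ 2 ∣ n := by
    rw [Nat.two_dvd_ne_zero]
    exact Nat.odd_iff.1 hn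
  unfold cf
  rw [Nat.factorization_eq_zero_of_not_dvd h2, pow_zero, pow_zero, Nat.div_one, one_mul]
  unfold jo js
  rw [if_pos hn]

/-- the four families of given parity -/
lemma fam_or (b : Bool) (i : Fin 4) : fam b i = F8 (eps b) ∨ fam b i = F4 (eps b) ∨
    fam b i = F1 (eps b) 1 ∨ fam b i = F1 (eps b) 5 := by
  fin_cases i
  · left; rfl
  · right; left; rfl
  · right; right; left; rfl
  · right; right; right; rfl

lemma fam_Fam (b : Bool) (i : Fin 4) : Fam (fam b i) := ⟨eps b, eps_or b, fam_or b i⟩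

lemma Fam_fam (φ : FD) (h : Fam φ) : ∃ (b : Bool) (i : Fin 4), φ = fam b i := by
  obtain ⟨ε, hε, h⟩ := h
  have hb : ∃ b : Bool, ε = eps b := by
    rcases hε with rfl | rfl
    · exact ⟨false, by simp [eps]⟩
    · exact ⟨true, by simp [eps]⟩
  obtain ⟨b, rfl⟩ := hb
  refine ⟨b, ?_⟩
  rcases h with h | h | h | h
  · exact ⟨0, h⟩
  · exact ⟨1, h⟩
  · exact ⟨2, h⟩
  · exact ⟨3, h⟩

lemma fam_odd (b : Bool) (i : Fin 4) (d : ℕ) (h : (fam b i).A d) : Odd d := by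
  rw [Nat.odd_iff]
  have he := eps_or b
  rcases fam_or b i with h1 | h1 | h1 | h1 <;> rw [h1] at h
  · exact Nat.odd_iff.1 h
  · have h2 : (eps b * (d : ℤ)) % 4 = 3 := h
    rcases he with he | he <;> rw [he] at h2 <;> omega
  · have h2 : (eps b * (d : ℤ)) % 8 = 1 := h.1
    rcases he with he | he <;> rw [he] at h2 <;> omega
  · have h2 : (eps b * (d : ℤ)) % 8 = 5 := h.1
    rcases he with he | he <;> rw [he] at h2 <;> omega

lemma fam_dvd (b : Bool) (i : Fin 4) : (fam b i).r ∣ 8 := by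
  rcases fam_or b i with h | h | h | h <;> rw [h]
  · exact dvd_refl _
  · exact ⟨2, rfl⟩
  · exact one_dvd _
  · exact one_dvd _

lemma fam_r_pos (b : Bool) (i : Fin 4) : 0 < (fam b i).r :=
  Nat.pos_of_dvd_of_pos (fam_dvd b i) (by norm_num)

/-- the value at `8 d - 1` -/
lemma cf_par (b : Bool) (i : Fin 4) (d : ℕ) (hd : Odd d) :
    cf (fam b i) d (8 * d - 1) = ((eps b : ℤ) : ℝ) := by
  have hd1 : 1 ≤ d := hd.pos
  have hn : Odd (8 * d - 1) := by
    rw [Nat.odd_iff]; omega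
  rw [cf_odd _ _ _ hn, jacobiSym.mul_left, jac_self d hd, mul_one]
  congr 1
  rcases fam_or b i with h | h | h | h <;> rw [h]
  · show jacobiSym (2 * eps b) (8 * d - 1) = eps b
    rw [jacobiSym.mul_left, jac_two d hd1, one_mul, jac_eps b d hd1]
  · exact jac_eps b d hd1
  · exact jac_eps b d hd1
  · exact jac_eps b d hd1

/-- the parity -/
lemma parity (b : Bool) (i : Fin 4) (d : ℕ) (hd : Odd d) (p : DC) (hp : Qr (fam b i) d p) :
    p.2 (-1) = ((eps b : ℤ) : ℂ) := by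
  have hd1 : 1 ≤ d := hd.pos
  obtain ⟨h1, h2⟩ := hp
  have h3 := h2 (8 * d - 1) (by omega)
  rw [cf_par b i d hd] at h3
  have h4 : ((8 * d - 1 : ℕ) : ZMod p.1) = -1 := by
    rw [Nat.cast_sub (by omega), Nat.cast_one]
    have h5 : ((8 * d : ℕ) : ZMod p.1) = 0 := by
      rw [ZMod.natCast_eq_zero_iff, h1]
      exact Nat.mul_dvd_mul_right (fam_dvd b i) d
    rw [h5, zero_sub]
  rw [h4] at h3
  rw [h3]
  norm_cast

/-- conductor and parity determine the family and the index -/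
lemma fam_uniq (b : Bool) (i j : Fin 4) (d d' : ℕ) (h : (fam b i).A d) (h' : (fam b j).A d')
    (hr : (fam b i).r * d = (fam b j).r * d') : i = j ∧ d = d' := by
  have o1 := Nat.odd_iff.1 (fam_odd b i d h)
  have o2 := Nat.odd_iff.1 (fam_odd b j d' h')
  have r0 : ∀ b, (fam b 0).r = 8 := fun _ => rfl
  have r1 : ∀ b, (fam b 1).r = 4 := fun _ => rfl
  have r2 : ∀ b, (fam b 2).r = 1 := fun _ => rfl
  have r3 : ∀ b, (fam b 3).r = 1 := fun _ => rfl
  have A2 : ∀ b d, (fam b 2).A d → (eps b * (d : ℤ)) % 8 = 1 := fun _ _ h => h.1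
  have A3 : ∀ b d, (fam b 3).A d → (eps b * (d : ℤ)) % 8 = 5 := fun _ _ h => h.1
  fin_cases i <;> fin_cases j <;>
    simp only [Fin.zero_eta, Fin.mk_one, Fin.reduceFinMk, r0, r1, r2, r3] at hr h h' ⊢
  · exact ⟨trivial, by omega⟩
  · exfalso; omega
  · exfalso; omega
  · exfalso; omega
  · exfalso; omega
  · exact ⟨trivial, by omega⟩
  · exfalso; omega
  · exfalso; omega
  · exfalso; omega
  · exfalso; omega
  · exact ⟨trivial, by omega⟩
  · exfalso
    have e : d = d' := by omega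
    rw [e] at h
    have h1 := A2 b _ h
    have h2 := A3 b _ h'
    omega
  · exfalso; omega
  · exfalso; omega
  · exfalso
    have e : d = d' := by omega
    rw [e] at h
    have h1 := A2 b _ h'
    have h2 := A3 b _ h
    omega
  · exact ⟨trivial, by omega⟩

lemma par_ne {b b' : Bool} (h : ((eps b : ℤ) : ℂ) = ((eps b' : ℤ) : ℂ)) : b = b' :=
  eps_inj (by exact_mod_cast h)

lemma mem_QF (b : Bool) (X : ℕ) (p : DC) (hp : p ∈ QFset b X) :
    ∃ (i : Fin 4) (d : ℕ), (fam b i).A d ∧ Squarefree d ∧ Qr (fam b i) d p := by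
  obtain ⟨h1, h2, h3, h4, h5, h6⟩ := hp
  obtain ⟨φ, d, hφ, hA, hs, hN, hv⟩ := Pool.Agent.H306R2.RG.LnkC.CLS p.1 h1 p.2 h3 h4 h5
  obtain ⟨b', i, rfl⟩ := Fam_fam φ hφ
  have hQ : Qr (fam b' i) d p := ⟨hN, hv⟩
  have h7 := parity b' i d (fam_odd b' i d hA) p hQ
  have h8 : p.2 (-1) = ((eps b : ℤ) : ℂ) := by
    rw [h6]
    cases b <;> simp [eps]
  have h9 : b' = b := par_ne (h7.symm.trans h8)
  subst h9
  exact ⟨i, d, hA, hs, hQ⟩

lemma QF_inj (b : Bool) (X : ℕ) : ∀ p ∈ QFset b X, ∀ p' ∈ QFset b X, p.1 = p'.1 → p = p' := by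
  intro p hp p' hp' h
  obtain ⟨i, d, h1, h2, h3⟩ := mem_QF b X p hp
  obtain ⟨j, d', h1', h2', h3'⟩ := mem_QF b X p' hp'
  obtain ⟨rfl, rfl⟩ := fam_uniq b i j d d' h1 h1' (by rw [← h3.1, ← h3'.1, h])
  exact Qr_unique hp.1 h3 h3'

lemma QF_fin (b : Bool) (X : ℕ) : (QFset b X).Finite := by
  refine Set.Finite.of_injOn (f := fun p : DC => p.1) (t := Set.Iic X) ?_ ?_ (Set.finite_Iic X)
  · intro p hp
    exact hp.2.1
  · intro p hp p' hp' h
    exact QF_inj b X p hp p' hp' h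

theorem IN : S_IN := fun b X => ⟨QF_fin b X, QF_inj b X⟩

lemma CGall : ∀ φ, Fam φ → CG φ := fun φ h => Pool.Agent.H306R2.RG.LnkC.CGF φ h

lemma mem_QFs (b : Bool) (X : ℕ) (p : DC) : p ∈ QFs b X ↔ p ∈ QFset b X := by
  unfold QFs
  rw [dif_pos (QF_fin b X)]
  simp

lemma ch_mem (b : Bool) (X : ℕ) (i : Fin 4) (d : ℕ) (hA : (fam b i).A d) (hs : Squarefree d)
    (hX : (fam b i).r * d ≤ X) : ch (fam b i) d ∈ QFset b X := by
  obtain ⟨h1, h2, _⟩ := ch_spec CGall (fam_Fam b i) (d := d) ⟨hA, hs⟩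
  refine ⟨h1.1, ?_, h1.2.1, h1.2.2.1, h1.2.2.2, ?_⟩
  · rw [h2.1]
    exact hX
  · rw [parity b i d (fam_odd b i d hA) _ h2]
    cases b <;> simp [eps]

open Classical in
theorem FM : S_FM := by
  intro b X m hm
  rw [Finset.sum_sigma' (Finset.univ : Finset (Fin 4)) (fun i =>
    (Finset.Icc 1 (X / (fam b i).r)).filter (fun d => (fam b i).A d ∧ Squarefree d))
    (fun i d => ((cf (fam b i) d m : ℝ) : ℂ))]
  symm
  refine Finset.sum_bij (fun x _ => ch (fam b x.1) x.2) ?_ ?_ ?_ ?_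
  · rintro ⟨i, d⟩ hx
    obtain ⟨_, hx2⟩ := Finset.mem_sigma.1 hx
    obtain ⟨hx3, hx4, hx5⟩ := Finset.mem_filter.1 hx2
    rw [mem_QFs]
    refine ch_mem b X i d hx4 hx5 ?_
    have := (Finset.mem_Icc.1 hx3).2
    rw [mul_comm]
    exact (Nat.le_div_iff_mul_le (fam_r_pos b i)).1 this
  · rintro ⟨i, d⟩ hx ⟨j, d'⟩ hy h
    obtain ⟨_, hx2⟩ := Finset.mem_sigma.1 hx
    obtain ⟨hx3, hx4, hx5⟩ := Finset.mem_filter.1 hx2
    obtain ⟨_, hy2⟩ := Finset.mem_sigma.1 hy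
    obtain ⟨hy3, hy4, hy5⟩ := Finset.mem_filter.1 hy2
    have s1 := (ch_spec CGall (fam_Fam b i) (d := d) ⟨hx4, hx5⟩).2.1.1
    have s2 := (ch_spec CGall (fam_Fam b j) (d := d') ⟨hy4, hy5⟩).2.1.1
    dsimp only at h
    rw [h] at s1
    obtain ⟨rfl, rfl⟩ := fam_uniq b i j d d' hx4 hy4 (s1.symm.trans s2)
    rfl
  · intro p hp
    rw [mem_QFs] at hp
    obtain ⟨i, d, h1, h2, h3⟩ := mem_QF b X p hp
    refine ⟨⟨i, d⟩, ?_, ?_⟩
    · rw [Finset.mem_sigma]
      refine ⟨Finset.mem_univ _, Finset.mem_filter.2 ⟨Finset.mem_Icc.2 ⟨?_, ?_⟩, h1, h2⟩⟩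
      · exact (fam_odd b i d h1).pos
      · rw [Nat.le_div_iff_mul_le (fam_r_pos b i), mul_comm, ← h3.1]
        exact hp.2.1
    · exact (Qr_unique hp.1 h3 (ch_spec CGall (fam_Fam b i) (d := d) ⟨h1, h2⟩).2.1).symm
  · rintro ⟨i, d⟩ hx
    obtain ⟨_, hx2⟩ := Finset.mem_sigma.1 hx
    obtain ⟨hx3, hx4, hx5⟩ := Finset.mem_filter.1 hx2
    exact ((ch_spec CGall (fam_Fam b i) (d := d) ⟨hx4, hx5⟩).2.1.2 m (by omega)).symm

end

end Pool.Agent.Y845.QF
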