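import Pool.Agent.Y986.QF.Ls
import Pool.Agent.Y752.QF.Stm3

set_option autoImplicit false

/-! Project QF: the weighted sum of the errors, exponent `5/3` (after `Pool.Agent.Y986.QF.ES`). -/

namespace Pool.Agent.Y845.QF.Es

open Set Filter Complex
open Pool.Agent.Y752.QF
open Pool.Agent.Y986.QF

noncomputable section

theorem ES53 (h : S_AR) (h' : S_LS) : S_ESK (5 / 3) := by
  intro B ε hε
  obtain ⟨C1, hC1, h1⟩ := h (3 * ε / 16) (by positivity)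
  obtain ⟨C2, hC2, h2⟩ := h'
  obtain ⟨C4, hC4, h4⟩ := logp (δ := ε / 2) (by positivity)
  set b1 : ℝ := 1 + |B| with hb1
  have hb1' : 1 ≤ b1 := by rw [hb1]; linarith [abs_nonneg B]
  refine ⟨(C1 ^ 2 * b1 + 2 * (3 * b1 * C2 * 3) + 2 * b1) * C4, by positivity, ?_⟩
  intro b X Z hX hZB
  have hX1 : (1:ℝ) ≤ X := by exact_mod_cast hX
  have hX0 : (0:ℝ) < X := by linarith
  have hlX : 0 ≤ Real.log X := Real.log_nonneg hX1
  rcases Nat.eq_zero_or_pos Z with hZ0 | hZ0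
  · subst hZ0
    simp only [Finset.Icc_eq_empty_of_lt, Nat.lt_one_iff, Finset.sum_empty]
    positivity
  have hZ1 : (1:ℝ) ≤ Z := by exact_mod_cast hZ0
  set L : ℝ := 1 + Real.log X with hL
  have hL1 : 1 ≤ L := by rw [hL]; linarith
  have hlZ0 : 0 ≤ Real.log Z := Real.log_nonneg hZ1
  have hlZ : 1 + Real.log Z ≤ b1 * L := by
    have h5 : Real.log Z ≤ B * Real.log X := by
      have := Real.log_le_log (by linarith) hZB
      rwa [Real.log_rpow hX0] at this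
    have h6 : B * Real.log X ≤ |B| * Real.log X := mul_le_mul_of_nonneg_right (le_abs_self B) hlX
    rw [hb1, hL]
    nlinarith [abs_nonneg B]
  -- thresholds
  set M0 : ℕ := ⌊(X : ℝ) ^ (4 / 3 : ℝ)⌋₊ with hM0
  have hXp : 1 ≤ (X : ℝ) ^ (4 / 3 : ℝ) := Real.one_le_rpow hX1 (by norm_num)
  have hM01 : 1 ≤ M0 := Nat.le_floor (by simpa using hXp)
  have hM0le : (M0 : ℝ) ≤ (X : ℝ) ^ (4 / 3 : ℝ) := Nat.floor_le (by positivity)
  have hM0lt : (X : ℝ) ^ (4 / 3 : ℝ) < M0 + 1 := Nat.lt_floor_add_one _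
  have hM0r : (1:ℝ) ≤ M0 := by exact_mod_cast hM01
  have hM0ge : (X : ℝ) ^ (4 / 3 : ℝ) / 2 ≤ M0 := by linarith
  set I : ℕ := Nat.log 2 Z + 1 with hI
  have hZI : Z ≤ 2 ^ I * M0 := by
    have h5 : Z < 2 ^ I := Nat.lt_pow_succ_log_self (by norm_num) Z
    calc Z ≤ 2 ^ I := h5.le
      _ ≤ 2 ^ I * M0 := Nat.le_mul_of_pos_right _ hM01
  have hIle : (I : ℝ) ≤ 3 * (b1 * L) := by
    have h5 : (Nat.log 2 Z : ℝ) ≤ Real.logb 2 Z := Real.natLog_le_logb Z 2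
    have h6 : Real.logb 2 Z ≤ 2 * Real.log Z := by
      rw [Real.logb, div_le_iff₀ (Real.log_pos (by norm_num))]
      have := Real.log_two_gt_d9
      nlinarith
    rw [hI]
    push_cast
    linarith
  -- first part
  have hpart1 : ∑ m ∈ (Finset.Icc 1 Z).filter (fun m => m ≤ M0), ‖Ee b X m‖ ^ 2 / m ≤
      C1 ^ 2 * b1 * L * (X : ℝ) ^ (5 / 3 + ε / 2 : ℝ) := by
    have h5 : ∀ m ∈ (Finset.Icc 1 Z).filter (fun m => m ≤ M0), ‖Ee b X m‖ ^ 2 / m ≤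
        C1 ^ 2 * (X : ℝ) ^ (5 / 3 + ε / 2 : ℝ) * (m : ℝ)⁻¹ := by
      intro m hm
      rw [Finset.mem_filter, Finset.mem_Icc] at hm
      have hm1 : (1:ℝ) ≤ m := by exact_mod_cast hm.1.1
      have hm0 : (0:ℝ) < m := by linarith
      have h6 := h1 b X m hX hm.1.1
      have h7 : (m : ℝ) ≤ (X : ℝ) ^ (4 / 3 : ℝ) := le_trans (by exact_mod_cast hm.2) hM0le
      have h8 : ((m : ℝ) ^ (1 / 4 + 3 * ε / 16 : ℝ)) ^ 2 ≤ (X : ℝ) ^ (2 / 3 + ε / 2 : ℝ) := by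
        rw [← Real.rpow_natCast, ← Real.rpow_mul hm0.le]
        refine (Real.rpow_le_rpow hm0.le h7 (by positivity)).trans ?_
        rw [← Real.rpow_mul hX0.le]
        refine le_of_eq ?_
        congr 1
        push_cast
        ring
      have h9 : ((X : ℝ) ^ (1 / 2 : ℝ)) ^ 2 = X := by
        rw [← Real.rpow_natCast, ← Real.rpow_mul hX0.le]
        norm_num
      have h10 : ‖Ee b X m‖ ^ 2 ≤ C1 ^ 2 * (X : ℝ) ^ (5 / 3 + ε / 2 : ℝ) := by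
        calc ‖Ee b X m‖ ^ 2 ≤ (C1 * (X : ℝ) ^ (1 / 2 : ℝ) * (m : ℝ) ^ (1 / 4 + 3 * ε / 16 : ℝ)) ^ 2 := by gcongr
          _ = C1 ^ 2 * ((X : ℝ) ^ (1 / 2 : ℝ)) ^ 2 * ((m : ℝ) ^ (1 / 4 + 3 * ε / 16 : ℝ)) ^ 2 := by ring
          _ ≤ C1 ^ 2 * X * (X : ℝ) ^ (2 / 3 + ε / 2 : ℝ) := by rw [h9]; gcongr
          _ = C1 ^ 2 * (X : ℝ) ^ (5 / 3 + ε / 2 : ℝ) := by
              rw [mul_assoc, ← Real.rpow_one_add' hX0.le (by positivity)]
              congr 2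
              ring
      rw [div_eq_mul_inv]
      exact mul_le_mul_of_nonneg_right h10 (by positivity)
    refine (Finset.sum_le_sum h5).trans ?_
    rw [← Finset.mul_sum]
    have h6 : ∑ m ∈ (Finset.Icc 1 Z).filter (fun m => m ≤ M0), (m : ℝ)⁻¹ ≤ b1 * L := by
      refine le_trans ?_ ((sum_inv Z).trans hlZ)
      exact Finset.sum_le_sum_of_subset_of_nonneg (Finset.filter_subset _ _) fun _ _ _ => by positivity
    calc C1 ^ 2 * (X : ℝ) ^ (5 / 3 + ε / 2 : ℝ) * ∑ m ∈ (Finset.Icc 1 Z).filter (fun m => m ≤ M0), (m : ℝ)⁻¹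
        ≤ C1 ^ 2 * (X : ℝ) ^ (5 / 3 + ε / 2 : ℝ) * (b1 * L) := by gcongr
      _ = _ := by ring
  -- second part
  have hsub : (Finset.Icc 1 Z).filter (fun m => ¬ m ≤ M0) ⊆ Finset.Ioc M0 (2 ^ I * M0) := by
    intro m hm
    rw [Finset.mem_filter, Finset.mem_Icc] at hm
    rw [Finset.mem_Ioc]
    exact ⟨not_le.mp hm.2, hm.1.2.trans hZI⟩
  have hpart2 : ∑ m ∈ (Finset.Icc 1 Z).filter (fun m => ¬ m ≤ M0), ‖∑ p ∈ QFs b X, cv p m‖ ^ 2 / m ≤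
      3 * b1 * C2 * 3 * L ^ 2 * (X : ℝ) ^ (5 / 3 : ℝ) := by
    have h5 : ∑ m ∈ (Finset.Icc 1 Z).filter (fun m => ¬ m ≤ M0), ‖∑ p ∈ QFs b X, cv p m‖ ^ 2 / m ≤
        ∑ m ∈ Finset.Ioc M0 (2 ^ I * M0), ‖∑ p ∈ QFs b X, cv p m‖ ^ 2 / m :=
      Finset.sum_le_sum_of_subset_of_nonneg hsub fun m _ _ => by positivity
    refine h5.trans ((dyadic (fun m => ‖∑ p ∈ QFs b X, cv p m‖ ^ 2) (fun m => by positivity) M0 hM01 I).trans ?_)
    have h6 : ∀ i ∈ Finset.range I, (∑ m ∈ Finset.Ioc (2 ^ i * M0) (2 * (2 ^ i * M0)),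
        ‖∑ p ∈ QFs b X, cv p m‖ ^ 2) / ((2:ℝ) ^ i * M0) ≤ C2 * 3 * L * (X : ℝ) ^ (5 / 3 : ℝ) := by
      intro i _
      have h7 := h2 b X (2 ^ i * M0) hX
      have h8 : (0:ℝ) < (2:ℝ) ^ i * M0 := by positivity
      have h9 : (M0 : ℝ) ≤ (2:ℝ) ^ i * M0 := by
        have : (1:ℝ) ≤ (2:ℝ) ^ i := one_le_pow₀ (by norm_num)
        nlinarith
      rw [div_le_iff₀ h8]
      push_cast at h7
      refine h7.trans ?_
      set W : ℝ := (2:ℝ) ^ i * M0 with hW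
      have h10 : (X : ℝ) ^ (4 / 3 : ℝ) ≤ 2 * W := by linarith
      have h11 : (X : ℝ) ^ (3 : ℕ) = (X : ℝ) ^ (5 / 3 : ℝ) * (X : ℝ) ^ (4 / 3 : ℝ) := by
        rw [← Real.rpow_add hX0, ← Real.rpow_natCast]
        norm_num
      have h12 : (X : ℝ) ≤ (X : ℝ) ^ (5 / 3 : ℝ) := by
        conv_lhs => rw [← Real.rpow_one (X : ℝ)]
        exact Real.rpow_le_rpow_of_exponent_le hX1 (by norm_num)
      have h13 : (0:ℝ) ≤ (X : ℝ) ^ (5 / 3 : ℝ) := by positivity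
      have h14 : (X : ℝ) ^ 3 * L ≤ 2 * ((X : ℝ) ^ (5 / 3 : ℝ) * W * L) := by
        rw [h11]
        have := mul_le_mul_of_nonneg_left h10 h13
        nlinarith [mul_le_mul_of_nonneg_right this (by linarith : (0:ℝ) ≤ L)]
      have h15 : (X : ℝ) * W ≤ (X : ℝ) ^ (5 / 3 : ℝ) * W * L := by
        calc (X : ℝ) * W ≤ (X : ℝ) ^ (5 / 3 : ℝ) * W := by gcongr
          _ ≤ (X : ℝ) ^ (5 / 3 : ℝ) * W * L := le_mul_of_one_le_right (by positivity) hL1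
      calc C2 * ((X : ℝ) * W + (X : ℝ) ^ 3 * L)
          ≤ C2 * ((X : ℝ) ^ (5 / 3 : ℝ) * W * L + 2 * ((X : ℝ) ^ (5 / 3 : ℝ) * W * L)) := by gcongr
        _ = C2 * 3 * L * (X : ℝ) ^ (5 / 3 : ℝ) * W := by ring
    refine (Finset.sum_le_sum h6).trans ?_
    rw [Finset.sum_const, Finset.card_range, nsmul_eq_mul]
    calc (I : ℝ) * (C2 * 3 * L * (X : ℝ) ^ (5 / 3 : ℝ)) ≤ (3 * (b1 * L)) * (C2 * 3 * L * (X : ℝ) ^ (5 / 3 : ℝ)) := by
          gcongr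
      _ = _ := by ring
  -- third part
  have hpart3 : ∑ m ∈ (Finset.Icc 1 Z).filter (fun m => ¬ m ≤ M0), mm X m ^ 2 / m ≤
      b1 * L * (X : ℝ) ^ (4 / 3 : ℝ) := by
    have h5 : ∀ m ∈ (Finset.Icc 1 Z).filter (fun m => ¬ m ≤ M0), mm X m ^ 2 / m ≤
        if IsSquare m then (X : ℝ) ^ (4 / 3 : ℝ) * (Real.sqrt m)⁻¹ else 0 := by
      intro m hm
      rw [Finset.mem_filter, Finset.mem_Icc] at hm
      obtain ⟨h6, h7⟩ := mm_le X m
      split_ifs with hsq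
      · rw [if_pos hsq] at h7
        have hmM : M0 + 1 ≤ m := by omega
        have h8 : (X : ℝ) ^ (4 / 3 : ℝ) ≤ m := by
          have : ((M0 + 1 : ℕ) : ℝ) ≤ m := by exact_mod_cast hmM
          push_cast at this
          linarith
        have hm0 : (0:ℝ) < m := by linarith
        have h9 : (X : ℝ) ^ (2 / 3 : ℝ) ≤ Real.sqrt m := by
          refine Real.le_sqrt_of_sq_le ?_
          rw [← Real.rpow_natCast, ← Real.rpow_mul hX0.le]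
          refine le_trans (le_of_eq ?_) h8
          norm_num
        have h10 : (0:ℝ) < Real.sqrt m := Real.sqrt_pos.mpr hm0
        have h11 : (m : ℝ) = Real.sqrt m * Real.sqrt m := (Real.mul_self_sqrt hm0.le).symm
        have h12 : mm X m ^ 2 ≤ (X : ℝ) ^ 2 := by gcongr
        have h13 : (X : ℝ) ^ (2 : ℕ) = (X : ℝ) ^ (4 / 3 : ℝ) * (X : ℝ) ^ (2 / 3 : ℝ) := by
          rw [← Real.rpow_add hX0, ← Real.rpow_natCast]
          norm_num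
        rw [div_le_iff₀ hm0]
        calc mm X m ^ 2 ≤ (X : ℝ) ^ 2 := h12
          _ = (X : ℝ) ^ (4 / 3 : ℝ) * (X : ℝ) ^ (2 / 3 : ℝ) := h13
          _ ≤ (X : ℝ) ^ (4 / 3 : ℝ) * Real.sqrt m := by gcongr
          _ = (X : ℝ) ^ (4 / 3 : ℝ) * (Real.sqrt m)⁻¹ * (Real.sqrt m * Real.sqrt m) := by
              field_simp
          _ = (X : ℝ) ^ (4 / 3 : ℝ) * (Real.sqrt m)⁻¹ * m := by rw [← h11]
      · rw [if_neg hsq] at h7
        have : mm X m = 0 := le_antisymm h7 h6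
        rw [this]
        simp
    refine (Finset.sum_le_sum h5).trans ?_
    have h6 : ∑ m ∈ (Finset.Icc 1 Z).filter (fun m => ¬ m ≤ M0),
        (if IsSquare m then (X : ℝ) ^ (4 / 3 : ℝ) * (Real.sqrt m)⁻¹ else 0) ≤
        ∑ j ∈ Finset.Icc 1 Z, (X : ℝ) ^ (4 / 3 : ℝ) * (j : ℝ)⁻¹ := by
      rw [← Finset.sum_filter]
      have h7 : ∀ m ∈ ((Finset.Icc 1 Z).filter (fun m => ¬ m ≤ M0)).filter (fun m => IsSquare m),
          (X : ℝ) ^ (4 / 3 : ℝ) * (Real.sqrt m)⁻¹ = (X : ℝ) ^ (4 / 3 : ℝ) * ((Nat.sqrt m : ℕ) : ℝ)⁻¹ := by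
        intro m hm
        rw [Finset.mem_filter] at hm
        obtain ⟨r, hr⟩ := hm.2
        subst hr
        rw [Nat.sqrt_eq]
        push_cast
        rw [Real.sqrt_mul_self (Nat.cast_nonneg r)]
      rw [Finset.sum_congr rfl h7]
      have h8 : Set.InjOn (fun m => Nat.sqrt m)
          (((Finset.Icc 1 Z).filter (fun m => ¬ m ≤ M0)).filter (fun m => IsSquare m) : Finset ℕ) := by
        intro m hm m' hm' he
        rw [Finset.mem_coe, Finset.mem_filter] at hm hm'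
        obtain ⟨r, hr⟩ := hm.2
        obtain ⟨r', hr'⟩ := hm'.2
        subst hr
        subst hr'
        simp only [Nat.sqrt_eq] at he
        rw [he]
      rw [← Finset.sum_image (g := fun m => Nat.sqrt m) (f := fun j : ℕ => (X : ℝ) ^ (4 / 3 : ℝ) * (j : ℝ)⁻¹)
        (by exact h8)]
      refine Finset.sum_le_sum_of_subset_of_nonneg ?_ fun _ _ _ => by positivity
      intro j hj
      rw [Finset.mem_image] at hj
      obtain ⟨m, hm, rfl⟩ := hj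
      rw [Finset.mem_filter, Finset.mem_filter, Finset.mem_Icc] at hm
      rw [Finset.mem_Icc]
      exact ⟨Nat.sqrt_pos.mpr hm.1.1.1, (Nat.sqrt_le_self m).trans hm.1.1.2⟩
    refine h6.trans ?_
    rw [← Finset.mul_sum]
    have h7 := (sum_inv Z).trans hlZ
    calc (X : ℝ) ^ (4 / 3 : ℝ) * ∑ j ∈ Finset.Icc 1 Z, (j : ℝ)⁻¹ ≤ (X : ℝ) ^ (4 / 3 : ℝ) * (b1 * L) := by gcongr
      _ = _ := by ring
  -- assembly
  have hE2 : ∀ m ∈ (Finset.Icc 1 Z).filter (fun m => ¬ m ≤ M0), ‖Ee b X m‖ ^ 2 / m ≤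
      2 * (‖∑ p ∈ QFs b X, cv p m‖ ^ 2 / m) + 2 * (mm X m ^ 2 / m) := by
    intro m _
    have h5 : ‖Ee b X m‖ ≤ ‖∑ p ∈ QFs b X, cv p m‖ + mm X m := by
      unfold Ee
      refine (norm_sub_le _ _).trans ?_
      rw [Complex.norm_real, Real.norm_of_nonneg (mm_le X m).1]
    have h6 : ‖Ee b X m‖ ^ 2 ≤ 2 * ‖∑ p ∈ QFs b X, cv p m‖ ^ 2 + 2 * mm X m ^ 2 := by
      have := (mm_le X m).1
      calc ‖Ee b X m‖ ^ 2 ≤ (‖∑ p ∈ QFs b X, cv p m‖ + mm X m) ^ 2 := by gcongr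
        _ ≤ _ := by nlinarith [sq_nonneg (‖∑ p ∈ QFs b X, cv p m‖ - mm X m)]
    calc ‖Ee b X m‖ ^ 2 / m ≤ (2 * ‖∑ p ∈ QFs b X, cv p m‖ ^ 2 + 2 * mm X m ^ 2) / m := by gcongr
      _ = _ := by ring
  rw [← Finset.sum_filter_add_sum_filter_not (Finset.Icc 1 Z) (fun m => m ≤ M0)]
  have hB := (Finset.sum_le_sum hE2)
  rw [Finset.sum_add_distrib, ← Finset.mul_sum, ← Finset.mul_sum] at hB
  have k1 : (X : ℝ) ^ (5 / 3 + ε / 2 : ℝ) ≤ (X : ℝ) ^ (5 / 3 + ε / 2 : ℝ) := le_rfl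
  have k2 : (X : ℝ) ^ (4 / 3 : ℝ) ≤ (X : ℝ) ^ (5 / 3 + ε / 2 : ℝ) :=
    Real.rpow_le_rpow_of_exponent_le hX1 (by linarith)
  have k3 : (X : ℝ) ^ (5 / 3 : ℝ) ≤ (X : ℝ) ^ (5 / 3 + ε / 2 : ℝ) :=
    Real.rpow_le_rpow_of_exponent_le hX1 (by linarith)
  have k4 : L ^ 2 * (X : ℝ) ^ (5 / 3 + ε / 2 : ℝ) ≤ C4 * (X : ℝ) ^ (5 / 3 + ε : ℝ) := by
    calc L ^ 2 * (X : ℝ) ^ (5 / 3 + ε / 2 : ℝ) ≤
          C4 * (X : ℝ) ^ (ε / 2) * (X : ℝ) ^ (5 / 3 + ε / 2 : ℝ) := by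
          have := h4 X hX1
          gcongr
      _ = C4 * (X : ℝ) ^ (5 / 3 + ε : ℝ) := by
          rw [mul_assoc, ← Real.rpow_add hX0]
          congr 2
          ring
  have hpart2' : ∑ m ∈ (Finset.Icc 1 Z).filter (fun m => ¬ m ≤ M0),
      ‖∑ p ∈ QFs b X, cv p m‖ ^ 2 / m ≤
      3 * b1 * C2 * 3 * L ^ 2 * (X : ℝ) ^ (5 / 3 + ε / 2 : ℝ) :=
    hpart2.trans (mul_le_mul_of_nonneg_left k3 (by positivity))
  exact asm C1 b1 C2 C4 L ((X : ℝ) ^ (5 / 3 + ε / 2 : ℝ)) ((X : ℝ) ^ (4 / 3 : ℝ))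
    ((X : ℝ) ^ (5 / 3 + ε / 2 : ℝ))
    ((X : ℝ) ^ (5 / 3 + ε : ℝ)) _ _ _ _ (by linarith) hC2.le hL1 (by positivity) (by positivity)
    k1 k2 k4 hpart1 hpart2' hpart3 hB

end

end Pool.Agent.Y845.QF.Es
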